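import Mathlib

set_option autoImplicit false

open Set Real MeasureTheory
open scoped ContDiff

namespace Pool.Agent.Helper80.D93447

/-- increasing base slope -/
noncomputable def V (X : ℝ) : ℝ := X - Real.sin (2 * π * X) / (2 * π)

/-- periodic spike -/
noncomputable def C (m : ℕ) (X : ℝ) : ℝ := ((1 + Real.cos (2 * π * X)) / 2) ^ (m + 1)

/-- the slope function -/
noncomputable def U (m : ℕ) (e κ : ℝ) (X : ℝ) : ℝ := e * V X - κ * C m X

/-- derivative of the slope function -/
noncomputable def U' (m : ℕ) (e κ : ℝ) (X : ℝ) : ℝ :=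
  e * (1 - Real.cos (2 * π * X)) +
    κ * ((m + 1) * π * Real.sin (2 * π * X) * ((1 + Real.cos (2 * π * X)) / 2) ^ m)

lemma V_hasDerivAt (X : ℝ) : HasDerivAt V (1 - Real.cos (2 * π * X)) X := by
  unfold V
  have h1 : HasDerivAt (fun X : ℝ => 2 * π * X) (2 * π) X := by
    simpa using (hasDerivAt_id X).const_mul (2 * π)
  have h2 := (h1.sin).div_const (2 * π)
  have hpi : (2 * π) ≠ 0 := by positivity
  have h3 := (hasDerivAt_id X).sub h2
  refine h3.congr_deriv ?_
  rw [mul_div_assoc, div_self hpi, mul_one]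

lemma C_hasDerivAt (m : ℕ) (X : ℝ) : HasDerivAt (C m)
    (-((m + 1) * π * Real.sin (2 * π * X) * ((1 + Real.cos (2 * π * X)) / 2) ^ m)) X := by
  unfold C
  have h1 : HasDerivAt (fun X : ℝ => 2 * π * X) (2 * π) X := by
    simpa using (hasDerivAt_id X).const_mul (2 * π)
  have h2 := ((h1.cos.const_add 1).div_const 2).pow (m + 1)
  refine h2.congr_deriv ?_
  simp only [Nat.add_sub_cancel, Nat.cast_add, Nat.cast_one]
  ring

lemma U_hasDerivAt (m : ℕ) (e κ : ℝ) (X : ℝ) : HasDerivAt (U m e κ) (U' m e κ X) X := by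
  unfold U U'
  have h := ((V_hasDerivAt X).const_mul e).sub ((C_hasDerivAt m X).const_mul κ)
  refine h.congr_deriv ?_
  ring

lemma V_strictMono : StrictMono V := by
  intro X Y hXY
  unfold V
  have hpi : 0 < 2 * π := by positivity
  have h1 : Real.sin (2 * π * Y) - Real.sin (2 * π * X) < 2 * π * Y - 2 * π * X := by
    rw [Real.sin_sub_sin]
    have hpos : 0 < (2 * π * Y - 2 * π * X) / 2 := by
      have : 0 < 2 * π * (Y - X) := mul_pos hpi (by linarith)
      nlinarith
    have h2 := Real.sin_lt hpos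
    have h3 : -((2 * π * Y - 2 * π * X) / 2) < Real.sin ((2 * π * Y - 2 * π * X) / 2) := by
      have := Real.neg_one_le_sin ((2 * π * Y - 2 * π * X) / 2)
      by_cases hc : (2 * π * Y - 2 * π * X) / 2 ≤ π
      · have := Real.sin_nonneg_of_nonneg_of_le_pi hpos.le hc
        linarith
      · push Not at hc
        have := Real.pi_gt_three
        linarith
    have h4 := Real.cos_le_one ((2 * π * Y + 2 * π * X) / 2)
    have h5 := Real.neg_one_le_cos ((2 * π * Y + 2 * π * X) / 2)
    have habs : |Real.sin ((2 * π * Y - 2 * π * X) / 2)| < (2 * π * Y - 2 * π * X) / 2 :=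
      abs_lt.mpr ⟨h3, h2⟩
    have habs2 : |Real.cos ((2 * π * Y + 2 * π * X) / 2)| ≤ 1 := abs_le.mpr ⟨h5, h4⟩
    calc 2 * Real.sin ((2 * π * Y - 2 * π * X) / 2) * Real.cos ((2 * π * Y + 2 * π * X) / 2)
        ≤ |2 * Real.sin ((2 * π * Y - 2 * π * X) / 2) * Real.cos ((2 * π * Y + 2 * π * X) / 2)| :=
          le_abs_self _
      _ = 2 * |Real.sin ((2 * π * Y - 2 * π * X) / 2)| *
            |Real.cos ((2 * π * Y + 2 * π * X) / 2)| := by
          rw [abs_mul, abs_mul]; norm_num
      _ ≤ 2 * |Real.sin ((2 * π * Y - 2 * π * X) / 2)| * 1 := by gcongr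
      _ < 2 * π * Y - 2 * π * X := by linarith
  have h2 : Real.sin (2 * π * Y) / (2 * π) - Real.sin (2 * π * X) / (2 * π) < Y - X := by
    rw [← sub_div, div_lt_iff₀ hpi]
    linarith
  linarith

lemma V_zero : V 0 = 0 := by simp [V]

lemma V_add_int (X : ℝ) (k : ℤ) : V (X + k) = V X + k := by
  unfold V
  have : 2 * π * (X + k) = 2 * π * X + k * (2 * π) := by ring
  rw [this, Real.sin_add_int_mul_two_pi]
  ring

lemma V_int (k : ℤ) : V k = k := by
  have := V_add_int 0 k
  rw [V_zero] at this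
  simpa using this

lemma U'_add_int (m : ℕ) (e κ X : ℝ) (k : ℤ) : U' m e κ (X + k) = U' m e κ X := by
  unfold U'
  have : 2 * π * (X + k) = 2 * π * X + k * (2 * π) := by ring
  rw [this, Real.sin_add_int_mul_two_pi, Real.cos_add_int_mul_two_pi]

lemma C_nonneg (m : ℕ) (X : ℝ) : 0 ≤ C m X := by
  unfold C
  have := Real.neg_one_le_cos (2 * π * X)
  apply pow_nonneg
  linarith

lemma C_le_one (m : ℕ) (X : ℝ) : C m X ≤ 1 := by
  unfold C
  have := Real.neg_one_le_cos (2 * π * X)
  have := Real.cos_le_one (2 * π * X)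
  apply pow_le_one₀ <;> linarith

/-- S1 -/
lemma U'_nonneg (m : ℕ) (e κ : ℝ) (he : 0 < e) (hκ : 0 < κ) (k : ℤ) (X : ℝ) (h1 : (k : ℝ) ≤ X)
    (h2 : X ≤ k + 1 / 2) : 0 ≤ U' m e κ X := by
  have hX : U' m e κ X = U' m e κ (X - k) := by
    have := U'_add_int m e κ (X - k) k
    rwa [sub_add_cancel] at this
  rw [hX]
  set t := X - k with ht
  have ht0 : 0 ≤ t := by linarith
  have ht1 : t ≤ 1 / 2 := by linarith
  unfold U'
  have hcos := Real.cos_le_one (2 * π * t)
  have hcos' := Real.neg_one_le_cos (2 * π * t)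
  have hsin : 0 ≤ Real.sin (2 * π * t) := by
    apply Real.sin_nonneg_of_nonneg_of_le_pi
    · positivity
    · nlinarith [Real.pi_pos]
  have h4 : 0 ≤ ((1 + Real.cos (2 * π * t)) / 2) ^ m := pow_nonneg (by linarith) _
  have h3 : 0 ≤ e * (1 - Real.cos (2 * π * t)) := mul_nonneg he.le (by linarith)
  have h5 : 0 ≤ κ * ((m + 1) * π * Real.sin (2 * π * t) * ((1 + Real.cos (2 * π * t)) / 2) ^ m) := by
    have := Real.pi_pos
    exact mul_nonneg hκ.le (mul_nonneg (mul_nonneg (by positivity : (0:ℝ) ≤ ((m:ℝ) + 1) * π) hsin) h4)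
  linarith

lemma U'_half (m : ℕ) (e κ t : ℝ) : U' m e κ (-t) =
    2 * Real.sin (π * t) * (e * Real.sin (π * t) - κ * ((m + 1) * π * Real.cos (π * t) ^ (2 * m + 1))) := by
  unfold U'
  have h1 : 2 * π * -t = -(2 * (π * t)) := by ring
  rw [h1, Real.cos_neg, Real.sin_neg, Real.cos_two_mul, Real.sin_two_mul]
  have h2 : (1 + (2 * Real.cos (π * t) ^ 2 - 1)) / 2 = Real.cos (π * t) ^ 2 := by ring
  rw [h2, ← pow_mul]
  have h3 : Real.cos (π * t) ^ 2 = 1 - Real.sin (π * t) ^ 2 := by
    have := Real.sin_sq_add_cos_sq (π * t); linarith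
  rw [show 1 - (2 * Real.cos (π * t) ^ 2 - 1) = 2 * Real.sin (π * t) ^ 2 by rw [h3]; ring]
  ring

/-- S2 -/
lemma U'_neg_of_neg (m : ℕ) (e κ : ℝ) (he : 0 < e) (hκ : 0 < κ) (k : ℤ) (X Y : ℝ)
    (h1 : (k : ℝ) - 1 / 2 < X) (h2 : X < Y) (h3 : Y < k) (h4 : U' m e κ X < 0) :
    U' m e κ Y < 0 := by
  have hX : U' m e κ X = U' m e κ (-(k - X)) := by
    have := U'_add_int m e κ (-(k - X)) k
    rw [← this]; congr 1; ring
  have hY : U' m e κ Y = U' m e κ (-(k - Y)) := by
    have := U'_add_int m e κ (-(k - Y)) k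
    rw [← this]; congr 1; ring
  rw [hX, U'_half] at h4
  rw [hY, U'_half]
  set t := k - X with ht
  set t' := k - Y with ht'
  have hpi := Real.pi_pos
  have ht0 : 0 < t' := by linarith
  have htt : t' < t := by linarith
  have ht1 : t < 1 / 2 := by linarith
  have hs : 0 < Real.sin (π * t) :=
    Real.sin_pos_of_pos_of_lt_pi (mul_pos hpi (ht0.trans htt)) (by nlinarith)
  have hs' : 0 < Real.sin (π * t') := Real.sin_pos_of_pos_of_lt_pi (by positivity) (by nlinarith)
  have hs2 : Real.sin (π * t') < Real.sin (π * t) := by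
    apply Real.sin_lt_sin_of_lt_of_le_pi_div_two
    · nlinarith
    · nlinarith
    · nlinarith
  have hc : 0 < Real.cos (π * t) := Real.cos_pos_of_mem_Ioo ⟨by nlinarith, by nlinarith⟩
  have hc2 : Real.cos (π * t) < Real.cos (π * t') := by
    apply Real.cos_lt_cos_of_nonneg_of_le_pi_div_two
    · nlinarith
    · nlinarith
    · nlinarith
  have h5 : e * Real.sin (π * t) - κ * ((m + 1) * π * Real.cos (π * t) ^ (2 * m + 1)) < 0 := by
    by_contra hcon
    push Not at hcon
    have := mul_nonneg (mul_nonneg (by norm_num : (0:ℝ) ≤ 2) hs.le) hcon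
    linarith
  have h6 : κ * ((m + 1) * π * Real.cos (π * t) ^ (2 * m + 1)) ≤
      κ * ((m + 1) * π * Real.cos (π * t') ^ (2 * m + 1)) := by
    gcongr
  have h7 : e * Real.sin (π * t') < e * Real.sin (π * t) := by gcongr
  apply mul_neg_of_pos_of_neg
  · linarith
  · linarith

lemma U_cont (m : ℕ) (e κ : ℝ) : Continuous (U m e κ) :=
  continuous_iff_continuousAt.mpr fun X => (U_hasDerivAt m e κ X).continuousAt

lemma V_cont : Continuous V :=
  continuous_iff_continuousAt.mpr fun X => (V_hasDerivAt X).continuousAt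

lemma C_cont (m : ℕ) : Continuous (C m) :=
  continuous_iff_continuousAt.mpr fun X => (C_hasDerivAt m X).continuousAt

/-- mean value: descending -/
lemma exists_neg (m : ℕ) (e κ a b : ℝ) (hab : a < b) (h : U m e κ b < U m e κ a) :
    ∃ q ∈ Ioo a b, U' m e κ q < 0 := by
  obtain ⟨q, hq, hq2⟩ := exists_hasDerivAt_eq_slope (U m e κ) (U' m e κ) hab
    (U_cont m e κ).continuousOn (fun x _ => U_hasDerivAt m e κ x)
  refine ⟨q, hq, ?_⟩
  rw [hq2]
  exact div_neg_of_neg_of_pos (by linarith) (by linarith)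

lemma exists_pos (m : ℕ) (e κ a b : ℝ) (hab : a < b) (h : U m e κ a < U m e κ b) :
    ∃ q ∈ Ioo a b, 0 < U' m e κ q := by
  obtain ⟨q, hq, hq2⟩ := exists_hasDerivAt_eq_slope (U m e κ) (U' m e κ) hab
    (U_cont m e κ).continuousOn (fun x _ => U_hasDerivAt m e κ x)
  refine ⟨q, hq, ?_⟩
  rw [hq2]
  exact div_pos (by linarith) (by linarith)

/-- position of descending points -/
lemma loc (m : ℕ) (e κ : ℝ) (he : 0 < e) (hκ : 0 < κ) (q : ℝ) (hq : U' m e κ q < 0) :
    ∃ k : ℤ, (k : ℝ) - 1 / 2 < q ∧ q < k := by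
  refine ⟨⌈q⌉, ?_, ?_⟩
  · by_contra hcon
    push Not at hcon
    have h1 := Int.ceil_lt_add_one q
    have := U'_nonneg m e κ he hκ (⌈q⌉ - 1) q (by push_cast; linarith) (by push_cast; linarith)
    linarith
  · have h1 := Int.le_ceil q
    rcases h1.lt_or_eq with h | h
    · exact h
    · have := U'_nonneg m e κ he hκ ⌈q⌉ q (by linarith) (by linarith)
      linarith

/-- pattern down-up-down forces a full half cell -/
lemma halfcell (m : ℕ) (e κ : ℝ) (he : 0 < e) (hκ : 0 < κ) (a b c d : ℝ) (hab : a < b)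
    (hbc : b < c) (hcd : c < d) (h1 : U m e κ b < U m e κ a) (h2 : U m e κ b < U m e κ c)
    (h3 : U m e κ d < U m e κ c) : ∃ k : ℤ, a ≤ k ∧ (k : ℝ) + 1 / 2 ≤ d := by
  obtain ⟨q, hq, hq1⟩ := exists_neg m e κ a b hab h1
  obtain ⟨r, hr, hr1⟩ := exists_pos m e κ b c hbc h2
  obtain ⟨p, hp, hp1⟩ := exists_neg m e κ c d hcd h3
  obtain ⟨k, hk1, hk2⟩ := loc m e κ he hκ q hq1
  refine ⟨k, by linarith [hq.1], ?_⟩
  have hr2 : (k : ℝ) ≤ r := by
    by_contra hcon
    push Not at hcon
    have := U'_neg_of_neg m e κ he hκ k q r hk1 (by linarith [hq.2, hr.1]) hcon hq1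
    linarith
  by_contra hcon
  push Not at hcon
  have := U'_nonneg m e κ he hκ k p (by linarith [hr.2, hp.1]) (by linarith [hp.2])
  linarith

/-- gain lemma -/
lemma gain (n m : ℕ) (e κ s : ℝ) (he : 0 < e) (hκ : 0 < κ)
    (hm : κ * ∫ X in (0:ℝ)..n, C m X < e * ∫ X in (0:ℝ)..(1/2), V X)
    (μ z : ℝ) (hμ : 0 ≤ μ) (hz : z ≤ n) (hs : s ≤ e * V μ) (k : ℤ) (h1 : μ ≤ k)
    (h2 : (k : ℝ) + 1 / 2 ≤ z) : 0 < ∫ X in μ..z, (U m e κ X - s) := by
  have hUi : ∀ a b : ℝ, IntervalIntegrable (fun X => e * V X - s) volume a b := fun a b =>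
    ((continuous_const.mul V_cont).sub continuous_const).intervalIntegrable a b
  have hCi : ∀ a b : ℝ, IntervalIntegrable (C m) volume a b := fun a b =>
    (C_cont m).intervalIntegrable a b
  have hmuz : μ ≤ z := by linarith
  have e1 : ∫ X in μ..z, (U m e κ X - s) =
      (∫ X in μ..z, (e * V X - s)) - κ * ∫ X in μ..z, C m X := by
    rw [← intervalIntegral.integral_const_mul, ← intervalIntegral.integral_sub (hUi _ _)
      ((hCi _ _).const_mul κ)]
    congr 1
    ext X
    unfold U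
    ring
  have e2 : ∫ X in μ..z, C m X ≤ ∫ X in (0:ℝ)..n, C m X := by
    apply intervalIntegral.integral_mono_interval hμ hmuz hz _ (hCi _ _)
    exact Filter.Eventually.of_forall fun X => C_nonneg m X
  have e3 : ∫ X in (k:ℝ)..(k + 1/2), (e * V X - s) ≤ ∫ X in μ..z, (e * V X - s) := by
    apply intervalIntegral.integral_mono_interval h1 (by linarith) h2 _ (hUi _ _)
    filter_upwards [self_mem_ae_restrict measurableSet_Ioc] with X hX
    have : V μ ≤ V X := V_strictMono.monotone hX.1.le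
    have := mul_le_mul_of_nonneg_left this he.le
    simp only [Pi.zero_apply]
    linarith
  have e4 : e * ∫ X in (0:ℝ)..(1/2), V X ≤ ∫ X in (k:ℝ)..(k + 1/2), (e * V X - s) := by
    have e5 : ∫ X in (k:ℝ)..(k + 1/2), (e * V X - s) = ∫ X in (0:ℝ)..(1/2), (e * V (X + k) - s) := by
      rw [intervalIntegral.integral_comp_add_right (fun X => e * V X - s) (k:ℝ)]
      congr 1 <;> ring
    rw [e5, ← intervalIntegral.integral_const_mul]
    apply intervalIntegral.integral_mono_on (by norm_num)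
    · exact (continuous_const.mul V_cont).intervalIntegrable _ _
    · exact ((continuous_const.mul (V_cont.comp (continuous_id.add continuous_const))).sub
        continuous_const).intervalIntegrable _ _
    · intro X _
      rw [V_add_int]
      have : V μ ≤ V k := V_strictMono.monotone h1
      rw [V_int] at this
      have := mul_le_mul_of_nonneg_left this he.le
      linarith
  rw [e1]
  have := mul_le_mul_of_nonneg_left e2 hκ.le
  linarith

lemma U_analytic (m : ℕ) (e κ : ℝ) : AnalyticOnNhd ℝ (U m e κ) univ := by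
  intro x _
  unfold U V C
  fun_prop

/-- `U` is not constant on any open interval -/
lemma U_not_const (m : ℕ) (e κ : ℝ) (he : 0 < e) (hκ : 0 < κ) (a b s : ℝ) (hab : a < b)
    (h : ∀ X ∈ Ioo a b, U m e κ X = s) : False := by
  have h1 : EqOn (U m e κ) (fun _ => s) univ := by
    apply (U_analytic m e κ).eqOn_of_preconnected_of_eventuallyEq
      (analyticOnNhd_const) isPreconnected_univ (mem_univ ((a + b) / 2))
    filter_upwards [Ioo_mem_nhds (show a < (a + b) / 2 by linarith)
      (show (a + b) / 2 < b by linarith)] with X hX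
    exact h X hX
  have h2 := h1 (mem_univ 0)
  have h3 := h1 (mem_univ (1/2))
  have h4 : U m e κ 0 = -κ := by simp [U, C, V_zero]
  have h5 : U m e κ (1/2) = e * (1 / 2) := by
    have : 2 * π * (1 / 2) = π := by ring
    unfold U C V
    rw [this]
    simp
  simp only at h2 h3
  linarith

/-- Rolle with both signs -/
lemma rolle (m : ℕ) (e κ : ℝ) (he : 0 < e) (hκ : 0 < κ) (s : ℝ) (G : ℝ → ℝ)
    (hG : ∀ X, HasDerivAt G (U m e κ X - s) X) (x y : ℝ) (hxy : x < y) (h : G x = G y) :
    (∃ ζ ∈ Ioo x y, U m e κ ζ < s) ∧ (∃ ζ ∈ Ioo x y, s < U m e κ ζ) := by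
  have hGc : Continuous G := continuous_iff_continuousAt.mpr fun X => (hG X).continuousAt
  have hd : ∀ X, deriv G X = U m e κ X - s := fun X => (hG X).deriv
  constructor
  · by_contra hcon
    push Not at hcon
    have hmono : MonotoneOn G (Icc x y) := by
      apply monotoneOn_of_deriv_nonneg (convex_Icc x y) hGc.continuousOn
      · intro X _
        exact (hG X).differentiableAt.differentiableWithinAt
      · intro X hX
        rw [interior_Icc] at hX
        rw [hd]
        linarith [hcon X hX]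
    have hconst : ∀ X ∈ Icc x y, G X = G x := by
      intro X hX
      have h1 := hmono (left_mem_Icc.mpr hxy.le) hX hX.1
      have h2 := hmono hX (right_mem_Icc.mpr hxy.le) hX.2
      linarith
    apply U_not_const m e κ he hκ x y s hxy
    intro X hX
    have h1 : HasDerivAt G 0 X := by
      have : G =ᶠ[nhds X] fun _ => G x := by
        filter_upwards [Ioo_mem_nhds hX.1 hX.2] with Z hZ
        exact hconst Z (Ioo_subset_Icc_self hZ)
      exact (hasDerivAt_const X (G x)).congr_of_eventuallyEq this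
    have := (hG X).unique h1
    linarith
  · by_contra hcon
    push Not at hcon
    have hmono : AntitoneOn G (Icc x y) := by
      apply antitoneOn_of_deriv_nonpos (convex_Icc x y) hGc.continuousOn
      · intro X _
        exact (hG X).differentiableAt.differentiableWithinAt
      · intro X hX
        rw [interior_Icc] at hX
        rw [hd]
        linarith [hcon X hX]
    have hconst : ∀ X ∈ Icc x y, G X = G x := by
      intro X hX
      have h1 := hmono (left_mem_Icc.mpr hxy.le) hX hX.1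
      have h2 := hmono hX (right_mem_Icc.mpr hxy.le) hX.2
      linarith
    apply U_not_const m e κ he hκ x y s hxy
    intro X hX
    have h1 : HasDerivAt G 0 X := by
      have : G =ᶠ[nhds X] fun _ => G x := by
        filter_upwards [Ioo_mem_nhds hX.1 hX.2] with Z hZ
        exact hconst Z (Ioo_subset_Icc_self hZ)
      exact (hasDerivAt_const X (G x)).congr_of_eventuallyEq this
    have := (hG X).unique h1
    linarith

/-- no five zeros -/
lemma no_five (n m : ℕ) (e κ s : ℝ) (he : 0 < e) (hκ : 0 < κ)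
    (hm : κ * ∫ X in (0:ℝ)..n, C m X < e * ∫ X in (0:ℝ)..(1/2), V X)
    (G : ℝ → ℝ) (hG : ∀ X, HasDerivAt G (U m e κ X - s) X)
    (z1 z2 z3 z4 z5 : ℝ) (h0 : 0 ≤ z1) (h12 : z1 < z2) (h23 : z2 < z3) (h34 : z3 < z4)
    (h45 : z4 < z5) (h5 : z5 ≤ n) (g1 : G z1 = 0) (g2 : G z2 = 0) (g3 : G z3 = 0)
    (g4 : G z4 = 0) (g5 : G z5 = 0) : False := by
  have hGc : Continuous G := continuous_iff_continuousAt.mpr fun X => (hG X).continuousAt
  have hint : ∀ a b : ℝ, ∫ X in a..b, (U m e κ X - s) = G b - G a := by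
    intro a b
    apply intervalIntegral.integral_eq_sub_of_hasDerivAt
    · intro X _; exact hG X
    · exact ((U_cont m e κ).sub continuous_const).intervalIntegrable _ _
  obtain ⟨-, a1, ha1, ha1'⟩ := rolle m e κ he hκ s G hG z1 z2 h12 (by rw [g1, g2])
  obtain ⟨⟨b2, hb2, hb2'⟩, -⟩ := rolle m e κ he hκ s G hG z2 z3 h23 (by rw [g2, g3])
  obtain ⟨-, a3, ha3, ha3'⟩ := rolle m e κ he hκ s G hG z3 z4 h34 (by rw [g3, g4])
  obtain ⟨⟨b4, hb4, hb4'⟩, -⟩ := rolle m e κ he hκ s G hG z4 z5 h45 (by rw [g4, g5])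
  have hUV : ∀ X, U m e κ X ≤ e * V X := by
    intro X
    unfold U
    have := mul_nonneg hκ.le (C_nonneg m X)
    linarith
  by_cases hs : s ≤ e * V z1
  · -- Case A
    obtain ⟨k, hk1, hk2⟩ := halfcell m e κ he hκ a1 b2 a3 b4 (by linarith [ha1.2, hb2.1])
      (by linarith [hb2.2, ha3.1]) (by linarith [ha3.2, hb4.1]) (by linarith) (by linarith)
      (by linarith)
    have := gain n m e κ s he hκ hm z1 z5 h0 h5 hs k (by linarith [ha1.1]) (by linarith [hb4.2])
    rw [hint, g1, g5] at this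
    linarith
  · -- Case B
    push Not at hs
    -- the base is above `s` at `z2`
    have hs2 : s < e * V a1 := lt_of_lt_of_le ha1' (hUV a1)
    obtain ⟨τ, hτ, hτ2⟩ : ∃ τ ∈ Icc z1 a1, e * V τ = s := by
      have hc : ContinuousOn (fun X => e * V X) (Icc z1 a1) :=
        (continuous_const.mul V_cont).continuousOn
      have := intermediate_value_Icc ha1.1.le hc
      exact this ⟨hs.le, hs2.le⟩
    have hτ1 : z1 < τ := by
      rcases hτ.1.lt_or_eq with h | h
      · exact h
      · rw [← h] at hτ2; linarith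
    have hGτ : G τ < 0 := by
      have hanti : StrictAntiOn G (Icc z1 τ) := by
        apply strictAntiOn_of_deriv_neg (convex_Icc z1 τ) hGc.continuousOn
        intro X hX
        rw [interior_Icc] at hX
        rw [(hG X).deriv]
        have h1 : V X < V τ := V_strictMono hX.2
        have h2 := hUV X
        have h3 : e * V X < e * V τ := by gcongr
        linarith
      have := hanti (left_mem_Icc.mpr hτ1.le) (right_mem_Icc.mpr hτ1.le) hτ1
      rwa [g1] at this
    obtain ⟨μ, hμ, hμ2⟩ := isCompact_Icc.exists_isMaxOn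
      (show (Icc τ z2).Nonempty from ⟨z2, right_mem_Icc.mpr (by linarith [hτ.2, ha1.2])⟩)
      hGc.continuousOn
    have hGμ : 0 ≤ G μ := by
      have := hμ2 (right_mem_Icc.mpr (by linarith [hτ.2, ha1.2] : τ ≤ z2))
      simp only [mem_ofPred_eq] at this
      rw [g2] at this
      exact this
    have hτμ : τ < μ := by
      rcases hμ.1.lt_or_eq with h | h
      · exact h
      · rw [← h] at hGμ; linarith
    have hUμ : s ≤ U m e κ μ := by
      by_contra hcon
      push Not at hcon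
      -- `G` is strictly decreasing near `μ`, so larger values to the left
      have hd := hG μ
      have hneg : U m e κ μ - s < 0 := by linarith
      have hev : ∀ᶠ X in nhds μ, U m e κ X < s :=
        (U_cont m e κ).continuousAt.eventually_lt continuousAt_const hcon
      obtain ⟨δ, hδ, hδ2⟩ := Metric.eventually_nhds_iff.mp hev
      set p := max τ (μ - δ / 2) with hp
      have hpμ : p < μ := max_lt hτμ (by linarith)
      have hanti : StrictAntiOn G (Icc p μ) := by
        apply strictAntiOn_of_deriv_neg (convex_Icc p μ) hGc.continuousOn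
        intro X hX
        rw [interior_Icc] at hX
        rw [(hG X).deriv]
        have : U m e κ X < s := by
          apply hδ2
          rw [Real.dist_eq, abs_lt]
          have : μ - δ / 2 ≤ p := le_max_right _ _
          constructor <;> linarith [hX.1, hX.2]
        linarith
      have h1 := hanti (left_mem_Icc.mpr hpμ.le) (right_mem_Icc.mpr hpμ.le) hpμ
      have h2 := hμ2 (show p ∈ Icc τ z2 from ⟨le_max_left _ _, by linarith [hμ.2]⟩)
      simp only [mem_ofPred_eq] at h2
      linarith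
    have hμb : μ < b2 := by linarith [hμ.2, hb2.1]
    obtain ⟨k, hk1, hk2⟩ := halfcell m e κ he hκ μ b2 a3 b4 hμb
      (by linarith [hb2.2, ha3.1]) (by linarith [ha3.2, hb4.1]) (by linarith) (by linarith)
      (by linarith)
    have hsμ : s ≤ e * V μ := by
      have h1 : V τ < V μ := V_strictMono hτμ
      have h3 : e * V τ < e * V μ := by gcongr
      linarith
    have := gain n m e κ s he hκ hm μ z5 (by linarith) h5 hsμ k hk1 (by linarith [hb4.2])
    rw [hint, g5] at this
    linarith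

/-- the spikes have small area -/
lemma area_small (n : ℕ) (ε : ℝ) (hε : 0 < ε) : ∃ m : ℕ, ∫ X in (0:ℝ)..n, C m X < ε := by
  have h1 : Filter.Tendsto (fun m : ℕ => ∫ X in (0:ℝ)..n, C m X) Filter.atTop
      (nhds (∫ X in (0:ℝ)..n, (0:ℝ))) := by
    apply intervalIntegral.tendsto_integral_filter_of_dominated_convergence (fun _ => (1:ℝ))
    · exact Filter.Eventually.of_forall fun m => (C_cont m).aestronglyMeasurable
    · refine Filter.Eventually.of_forall fun m => Filter.Eventually.of_forall fun X _ => ?_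
      rw [Real.norm_eq_abs, abs_of_nonneg (C_nonneg m X)]
      exact C_le_one m X
    · exact continuous_const.intervalIntegrable _ _
    · have hae : ∀ᵐ X : ℝ ∂volume, X ∉ range (fun k : ℤ => (k : ℝ)) :=
        (countable_range _).ae_notMem volume
      filter_upwards [hae] with X hX _
      have hlt : (1 + Real.cos (2 * π * X)) / 2 < 1 := by
        have hne : Real.cos (2 * π * X) ≠ 1 := by
          intro hc
          rw [Real.cos_eq_one_iff] at hc
          obtain ⟨k, hk⟩ := hc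
          apply hX
          refine ⟨k, ?_⟩
          have hpi : (2 * π) ≠ 0 := by positivity
          have : (2 * π) * k = (2 * π) * X := by linarith
          exact mul_left_cancel₀ hpi this
        have := lt_of_le_of_ne (Real.cos_le_one (2 * π * X)) hne
        linarith
      have hge : 0 ≤ (1 + Real.cos (2 * π * X)) / 2 := by
        have := Real.neg_one_le_cos (2 * π * X)
        linarith
      have := tendsto_pow_atTop_nhds_zero_of_lt_one hge hlt
      exact (Filter.tendsto_add_atTop_iff_nat 1).mpr this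
  simp only [intervalIntegral.integral_zero] at h1
  have h2 := (h1.eventually (gt_mem_nhds hε)).exists
  exact h2

lemma intV_pos : 0 < ∫ X in (0:ℝ)..(1/2), V X := by
  apply intervalIntegral.intervalIntegral_pos_of_pos_on (V_cont.intervalIntegrable _ _) _
    (by norm_num)
  intro X hX
  have := V_strictMono hX.1
  rwa [V_zero] at this

lemma U_int (m : ℕ) (e κ : ℝ) (k : ℤ) : U m e κ k = e * k - κ := by
  unfold U
  rw [V_int]
  have : C m (k : ℝ) = 1 := by
    unfold C
    have : 2 * π * (k : ℝ) = k * (2 * π) := by ring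
    rw [this, Real.cos_int_mul_two_pi]
    norm_num
  rw [this, mul_one]

lemma U_halfint (m : ℕ) (e κ : ℝ) (k : ℤ) : U m e κ (k + 1 / 2) = e * (k + 1 / 2) := by
  unfold U
  have h1 : V ((k : ℝ) + 1 / 2) = k + 1 / 2 := by
    have := V_add_int (1/2) k
    rw [add_comm] at this
    rw [this]
    unfold V
    have : 2 * π * (1 / 2) = π := by ring
    rw [this]
    simp
    ring
  have h2 : C m ((k : ℝ) + 1 / 2) = 0 := by
    unfold C
    have : 2 * π * ((k : ℝ) + 1 / 2) = π + k * (2 * π) := by ring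
    rw [this, Real.cos_add_int_mul_two_pi]
    simp
  rw [h1, h2]
  ring

lemma U'_cont (m : ℕ) (e κ : ℝ) : Continuous (U' m e κ) := by
  unfold U'
  fun_prop

lemma variation (n m : ℕ) (e κ : ℝ) (hκ : e / 2 ≤ κ) :
    n * (κ - e / 2) ≤ ∫ X in (0:ℝ)..n, |U' m e κ X| := by
  have hi : ∀ a b : ℝ, IntervalIntegrable (fun X => |U' m e κ X|) volume a b := fun a b =>
    (U'_cont m e κ).abs.intervalIntegrable a b
  have h1 : ∑ k ∈ Finset.range n, ∫ X in ((k : ℕ) : ℝ)..((k + 1 : ℕ) : ℝ), |U' m e κ X| =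
      ∫ X in ((0 : ℕ) : ℝ)..(n : ℝ), |U' m e κ X| :=
    intervalIntegral.sum_integral_adjacent_intervals (a := fun k : ℕ => (k : ℝ))
      (fun k _ => hi _ _)
  rw [Nat.cast_zero] at h1
  rw [← h1]
  have h2 : ∀ k ∈ Finset.range n, κ - e / 2 ≤
      ∫ X in ((k : ℕ) : ℝ)..((k + 1 : ℕ) : ℝ), |U' m e κ X| := by
    intro k _
    have h3 : ∫ X in ((k : ℝ) + 1 / 2)..((k : ℝ) + 1), |U' m e κ X| ≤
        ∫ X in ((k : ℕ) : ℝ)..((k + 1 : ℕ) : ℝ), |U' m e κ X| := by
      apply intervalIntegral.integral_mono_interval (by linarith) (by linarith)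
        (by push_cast; linarith) _ (hi _ _)
      exact Filter.Eventually.of_forall fun X => abs_nonneg _
    have h4 : ∫ X in ((k : ℝ) + 1 / 2)..((k : ℝ) + 1), U' m e κ X = e / 2 - κ := by
      rw [intervalIntegral.integral_eq_sub_of_hasDerivAt
        (fun X _ => U_hasDerivAt m e κ X) ((U'_cont m e κ).intervalIntegrable _ _)]
      have h5 := U_int m e κ (k + 1)
      have h6 := U_halfint m e κ k
      push_cast at h5 h6
      rw [h5, h6]
      ring
    have h5 : |∫ X in ((k : ℝ) + 1 / 2)..((k : ℝ) + 1), U' m e κ X| ≤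
        ∫ X in ((k : ℝ) + 1 / 2)..((k : ℝ) + 1), |U' m e κ X| :=
      intervalIntegral.abs_integral_le_integral_abs (by linarith)
    rw [h4, abs_sub_comm, abs_of_nonneg (by linarith)] at h5
    linarith
  calc n * (κ - e / 2) = ∑ k ∈ Finset.range n, (κ - e / 2) := by
        rw [Finset.sum_const, Finset.card_range, nsmul_eq_mul]
    _ ≤ _ := Finset.sum_le_sum h2

/-- The construction. -/
theorem construction (M : ℝ) (hM : 0 < M) (K : ℝ) :
    ∃ y : ℝ → ℝ, ContDiff ℝ ∞ y ∧ (∀ x ∈ Icc (0:ℝ) 1, |y x| ≤ M) ∧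
      (∀ x ∈ Icc (0:ℝ) 1, |deriv y x| ≤ M) ∧
      K ≤ ∫ x in (0:ℝ)..1, |deriv (deriv y) x| ∧
      ∀ a b : ℝ, {x ∈ Icc (0:ℝ) 1 | y x = a + b * x}.encard ≤ 4 := by
  obtain ⟨n, hn⟩ := exists_nat_gt (max 1 (4 * K / M))
  have hn1 : (1:ℝ) < n := lt_of_le_of_lt (le_max_left _ _) hn
  have hnK : K ≤ n * (M / 4) := by
    have := lt_of_le_of_lt (le_max_right _ _) hn
    rw [div_lt_iff₀ hM] at this
    linarith
  have hn0 : (0:ℝ) < n := by linarith
  set κ := M / 2 with hκd
  set e := M / (2 * n) with hed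
  have hκ : 0 < κ := by positivity
  have he : 0 < e := by positivity
  have hen : e * n = M / 2 := by rw [hed]; field_simp
  obtain ⟨m, hm⟩ := area_small n (e * (∫ X in (0:ℝ)..(1/2), V X) / κ)
    (div_pos (mul_pos he intV_pos) hκ)
  rw [lt_div_iff₀ hκ, mul_comm] at hm
  set Y : ℝ → ℝ := fun X => ∫ t in (0:ℝ)..X, U m e κ t with hY
  have hYd : ∀ X, HasDerivAt Y (U m e κ X) X := fun X =>
    intervalIntegral.integral_hasDerivAt_right ((U_cont m e κ).intervalIntegrable _ _)
      ((U_cont m e κ).stronglyMeasurableAtFilter _ _) (U_cont m e κ).continuousAt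
  set y : ℝ → ℝ := fun x => Y (n * x) / n with hy
  have hyd : ∀ x, HasDerivAt y (U m e κ (n * x)) x := by
    intro x
    have h1 : HasDerivAt (fun x : ℝ => (n:ℝ) * x) n x := by
      simpa using (hasDerivAt_id x).const_mul (n:ℝ)
    have h2 := ((hYd (n * x)).comp x h1).div_const (n:ℝ)
    refine h2.congr_deriv ?_
    field_simp
  have hdy : deriv y = fun x => U m e κ (n * x) := by
    ext x; exact (hyd x).deriv
  have hddy : deriv (deriv y) = fun x => n * U' m e κ (n * x) := by
    rw [hdy]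
    ext x
    have h1 : HasDerivAt (fun x : ℝ => (n:ℝ) * x) n x := by
      simpa using (hasDerivAt_id x).const_mul (n:ℝ)
    have h2 := (U_hasDerivAt m e κ (n * x)).comp x h1
    rw [mul_comm]
    exact h2.deriv
  have hUb : ∀ X ∈ Icc (0:ℝ) n, |U m e κ X| ≤ M := by
    intro X hX
    have h1 : V 0 ≤ V X := V_strictMono.monotone hX.1
    have h2 : V X ≤ V n := V_strictMono.monotone hX.2
    have h3 : V (n:ℝ) = n := by
      have := V_int n
      simpa using this
    rw [V_zero] at h1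
    rw [h3] at h2
    have h4 := C_nonneg m X
    have h5 := C_le_one m X
    have h6 : e * V X ≤ e * n := by gcongr
    have h7 : 0 ≤ e * V X := mul_nonneg he.le h1
    have h8 : 0 ≤ κ * C m X := mul_nonneg hκ.le h4
    have h9 : κ * C m X ≤ κ * 1 := by gcongr
    rw [abs_le]
    unfold U
    constructor <;> linarith
  refine ⟨y, ?_, ?_, ?_, ?_, ?_⟩
  · rw [contDiff_infty_iff_deriv]
    refine ⟨fun x => (hyd x).differentiableAt, ?_⟩
    rw [hdy]
    unfold U V C
    fun_prop
  · intro x hx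
    have h1 : ∀ X ∈ Icc (0:ℝ) n, |Y X| ≤ M * X := by
      intro X hX
      have h2 : ‖∫ t in (0:ℝ)..X, U m e κ t‖ ≤ M * |X - 0| := by
        apply intervalIntegral.norm_integral_le_of_norm_le_const
        intro t ht
        rw [uIoc_of_le hX.1] at ht
        exact hUb t ⟨ht.1.le, ht.2.trans hX.2⟩
      rw [sub_zero, abs_of_nonneg hX.1] at h2
      exact h2
    have h2 := h1 (n * x) ⟨mul_nonneg hn0.le hx.1, by nlinarith [hx.2]⟩
    show |Y (n * x) / n| ≤ M
    rw [abs_div, abs_of_pos hn0, div_le_iff₀ hn0]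
    calc |Y (n * x)| ≤ M * (n * x) := h2
      _ ≤ M * (n * 1) := by gcongr; exact hx.2
      _ = M * n := by ring
  · intro x hx
    rw [hdy]
    exact hUb _ ⟨mul_nonneg hn0.le hx.1, by nlinarith [hx.2]⟩
  · rw [hddy]
    have h1 : ∫ x in (0:ℝ)..1, |n * U' m e κ (n * x)| = ∫ X in (0:ℝ)..n, |U' m e κ X| := by
      have h2 : ∀ x : ℝ, |n * U' m e κ (n * x)| = n * |U' m e κ (n * x)| := by
        intro x
        rw [abs_mul, abs_of_pos hn0]
      simp_rw [h2]
      rw [intervalIntegral.integral_const_mul,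
        intervalIntegral.integral_comp_mul_left (fun X => |U' m e κ X|) hn0.ne']
      simp only [mul_zero, mul_one, smul_eq_mul]
      field_simp
    rw [h1]
    have h3 : e ≤ M / 2 := by
      rw [← hen]
      nlinarith
    have h2 := variation n m e κ (by linarith)
    have h4 : n * (M / 4) ≤ n * (κ - e / 2) := by
      gcongr
      linarith
    linarith
  · intro a b
    by_contra hcon
    push Not at hcon
    have h5 : (5 : ℕ∞) ≤ {x ∈ Icc (0:ℝ) 1 | y x = a + b * x}.encard := by
      have := Order.add_one_le_of_lt hcon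
      exact this
    obtain ⟨T, hT, hT5⟩ := Set.exists_subset_encard_eq h5
    have hTf : T.Finite := Set.finite_of_encard_eq_coe (k := 5) hT5
    have hTc : hTf.toFinset.card = 5 := by
      have := hTf.encard_eq_coe_toFinset_card
      rw [hT5] at this
      exact_mod_cast this.symm
    set φ := hTf.toFinset.orderEmbOfFin hTc with hφ
    have hmem : ∀ i, φ i ∈ {x ∈ Icc (0:ℝ) 1 | y x = a + b * x} := by
      intro i
      apply hT
      have := Finset.orderEmbOfFin_mem hTf.toFinset hTc i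
      rwa [Set.Finite.mem_toFinset] at this
    have hlt : ∀ i j : Fin 5, i < j → (n:ℝ) * φ i < n * φ j := by
      intro i j hij
      have : φ i < φ j := φ.strictMono hij
      gcongr
    set G : ℝ → ℝ := fun X => Y X - (n * a + b * X) with hG
    have hGd : ∀ X, HasDerivAt G (U m e κ X - b) X := by
      intro X
      have h1 : HasDerivAt (fun X : ℝ => n * a + b * X) b X := by
        simpa using ((hasDerivAt_id X).const_mul b).const_add (n * a)
      exact (hYd X).sub h1
    have hGz : ∀ i, G (n * φ i) = 0 := by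
      intro i
      have h1 := (hmem i).2
      simp only [hy] at h1
      rw [div_eq_iff hn0.ne'] at h1
      simp only [hG]
      rw [h1]
      ring
    exact no_five n m e κ b he hκ hm G hGd (n * φ 0) (n * φ 1) (n * φ 2) (n * φ 3) (n * φ 4)
      (mul_nonneg hn0.le (hmem 0).1.1) (hlt 0 1 (by decide)) (hlt 1 2 (by decide))
      (hlt 2 3 (by decide)) (hlt 3 4 (by decide)) (by nlinarith [(hmem 4).1.2])
      (hGz 0) (hGz 1) (hGz 2) (hGz 3) (hGz 4)

/-- some line meets the graph of `y` over `[0,1]` in four points -/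
def Four (y : ℝ → ℝ) : Prop :=
  ∃ a b z1 z2 z3 z4 : ℝ, 0 ≤ z1 ∧ z1 < z2 ∧ z2 < z3 ∧ z3 < z4 ∧ z4 ≤ 1 ∧
    y z1 = a + b * z1 ∧ y z2 = a + b * z2 ∧ y z3 = a + b * z3 ∧ y z4 = a + b * z4

lemma Four.neg {y : ℝ → ℝ} (h : Four (fun x => -y x)) : Four y := by
  obtain ⟨a, b, z1, z2, z3, z4, h0, h12, h23, h34, h4, e1, e2, e3, e4⟩ := h
  refine ⟨-a, -b, z1, z2, z3, z4, h0, h12, h23, h34, h4, ?_, ?_, ?_, ?_⟩ <;> linarith

lemma neg_right {h : ℝ → ℝ} {d x x' : ℝ} (hd : HasDerivWithinAt h d (Icc 0 1) x) (hneg : d < 0)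
    (hx : 0 ≤ x) (hxx : x < x') (hx' : x' ≤ 1) : ∃ z ∈ Ioo x x', h z < h x := by
  have h1 : HasDerivWithinAt h d (Ioo x x') x :=
    hd.mono fun z hz => ⟨by linarith [hz.1], by linarith [hz.2]⟩
  rw [hasDerivWithinAt_iff_tendsto_slope' (by simp)] at h1
  have h2 := h1.eventually (gt_mem_nhds hneg)
  have : (nhdsWithin x (Ioo x x')).NeBot := left_nhdsWithin_Ioo_neBot hxx
  obtain ⟨z, hz1, hz2⟩ := (h2.and self_mem_nhdsWithin).exists
  refine ⟨z, hz2, ?_⟩
  rw [slope_def_field] at hz1
  have h3 : 0 < z - x := by linarith [hz2.1]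
  have h4 := (div_lt_iff₀ h3).mp hz1
  linarith

lemma neg_left {h : ℝ → ℝ} {d x x' : ℝ} (hd : HasDerivWithinAt h d (Icc 0 1) x) (hneg : d < 0)
    (hx : 0 ≤ x') (hxx : x' < x) (hx' : x ≤ 1) : ∃ z ∈ Ioo x' x, h x < h z := by
  have h1 : HasDerivWithinAt h d (Ioo x' x) x :=
    hd.mono fun z hz => ⟨by linarith [hz.1], by linarith [hz.2]⟩
  rw [hasDerivWithinAt_iff_tendsto_slope' (by simp)] at h1
  have h2 := h1.eventually (gt_mem_nhds hneg)
  have : (nhdsWithin x (Ioo x' x)).NeBot := right_nhdsWithin_Ioo_neBot hxx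
  obtain ⟨z, hz1, hz2⟩ := (h2.and self_mem_nhdsWithin).exists
  refine ⟨z, hz2, ?_⟩
  rw [slope_def_field] at hz1
  have h3 : z - x < 0 := by linarith [hz2.2]
  rw [div_neg_iff] at hz1
  rcases hz1 with ⟨h4, _⟩ | ⟨_, h4⟩ <;> linarith

lemma ivt {h : ℝ → ℝ} (hc : ContinuousOn h (Icc 0 1)) {p q l : ℝ} (hp : p ∈ Icc (0:ℝ) 1)
    (hq : q ∈ Icc (0:ℝ) 1) (h1 : h p < l) (h2 : l < h q) :
    ∃ z, min p q < z ∧ z < max p q ∧ h z = l := by
  rcases lt_trichotomy p q with hpq | hpq | hpq
  · have hsub : Icc p q ⊆ Icc (0:ℝ) 1 := Icc_subset_Icc hp.1 hq.2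
    obtain ⟨z, hz, hz2⟩ := intermediate_value_Ioo hpq.le (hc.mono hsub) ⟨h1, h2⟩
    exact ⟨z, by rw [min_eq_left hpq.le]; exact hz.1, by rw [max_eq_right hpq.le]; exact hz.2, hz2⟩
  · subst hpq; linarith
  · have hsub : Icc q p ⊆ Icc (0:ℝ) 1 := Icc_subset_Icc hq.1 hp.2
    obtain ⟨z, hz, hz2⟩ := intermediate_value_Ioo' hpq.le (hc.mono hsub) ⟨h1, h2⟩
    exact ⟨z, by rw [min_eq_right hpq.le]; exact hz.1, by rw [max_eq_left hpq.le]; exact hz.2, hz2⟩

/-- Core: `h` with three descending points -/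
lemma core {y : ℝ → ℝ} (hc : ContinuousOn y (Icc 0 1)) {w : ℝ → ℝ}
    (hd : ∀ x ∈ Icc (0:ℝ) 1, HasDerivWithinAt y (w x) (Icc 0 1) x) (s : ℝ)
    {x1 x2 x3 : ℝ} (h0 : 0 ≤ x1) (h12 : x1 < x2) (h23 : x2 < x3) (h3 : x3 ≤ 1)
    (w1 : w x1 < s) (w2 : w x2 < s) (w3 : w x3 < s)
    (g12 : y x1 - s * x1 ≤ y x2 - s * x2) (g23 : y x2 - s * x2 ≤ y x3 - s * x3) : Four y := by
  set σ := (y x2 - y x1) / (x2 - x1) with hσ
  set τ := (y x3 - y x2) / (x3 - x2) with hτ
  have e1 : y x2 - y x1 = σ * (x2 - x1) := by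
    rw [hσ, div_mul_cancel₀]; linarith
  have e2 : y x3 - y x2 = τ * (x3 - x2) := by
    rw [hτ, div_mul_cancel₀]; linarith
  have hsσ : s ≤ σ := by
    by_contra hcon
    push Not at hcon
    have : σ * (x2 - x1) < s * (x2 - x1) := by
      apply mul_lt_mul_of_pos_right hcon; linarith
    linarith
  have hsτ : s ≤ τ := by
    by_contra hcon
    push Not at hcon
    have : τ * (x3 - x2) < s * (x3 - x2) := by
      apply mul_lt_mul_of_pos_right hcon; linarith
    linarith
  have hline : ∀ a b : ℝ, ContinuousOn (fun x => y x - (a + b * x)) (Icc 0 1) := fun a b =>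
    hc.sub (by fun_prop)
  have hlined : ∀ a b x : ℝ, x ∈ Icc (0:ℝ) 1 →
      HasDerivWithinAt (fun x => y x - (a + b * x)) (w x - b) (Icc 0 1) x := by
    intro a b x hx
    have h1 : HasDerivAt (fun X : ℝ => a + b * X) b x := by
      simpa using ((hasDerivAt_id x).const_mul b).const_add a
    exact (hd x hx).sub h1.hasDerivWithinAt
  have m1 : x1 ∈ Icc (0:ℝ) 1 := ⟨h0, by linarith⟩
  have m2 : x2 ∈ Icc (0:ℝ) 1 := ⟨by linarith, by linarith⟩
  have m3 : x3 ∈ Icc (0:ℝ) 1 := ⟨by linarith, h3⟩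
  rcases le_or_gt σ τ with hle | hgt
  · -- line through P1 P2
    set a := y x1 - σ * x1 with ha
    have z1 : y x1 - (a + σ * x1) = 0 := by rw [ha]; ring
    have z2 : y x2 - (a + σ * x2) = 0 := by rw [ha]; linarith
    have z3 : 0 ≤ y x3 - (a + σ * x3) := by
      have : σ * (x3 - x2) ≤ τ * (x3 - x2) := by
        apply mul_le_mul_of_nonneg_right hle; linarith
      rw [ha]; linarith
    obtain ⟨p, hp, hp1⟩ := neg_right (hlined a σ x1 m1) (by linarith) h0 h12 m2.2
    obtain ⟨q, hq, hq1⟩ := neg_left (hlined a σ x2 m2) (by linarith) h0 h12 m2.2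
    obtain ⟨r, hr, hr1⟩ := neg_right (hlined a σ x2 m2) (by linarith) m2.1 h23 h3
    rw [z1] at hp1
    rw [z2] at hq1 hr1
    obtain ⟨z, hz1, hz2, hz3⟩ := ivt (hline a σ) (p := p) (q := q) (l := 0)
      ⟨by linarith [hp.1], by linarith [hp.2, m2.2]⟩ ⟨by linarith [hq.1], by linarith [hq.2, m2.2]⟩
      hp1 hq1
    have hz4 : x1 < z := lt_of_le_of_lt (le_min hp.1.le hq.1.le) hz1
    have hz5 : z < x2 := lt_of_lt_of_le hz2 (max_le hp.2.le hq.2.le)
    obtain ⟨t, ht1, ht2, ht3⟩ : ∃ t, x2 < t ∧ t ≤ x3 ∧ y t - (a + σ * t) = 0 := by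
      rcases z3.eq_or_lt with h | h
      · exact ⟨x3, h23, le_rfl, h.symm⟩
      · obtain ⟨t, ht1, ht2, ht3⟩ := ivt (hline a σ) (p := r) (q := x3) (l := 0)
          ⟨by linarith [hr.1, m2.1], by linarith [hr.2]⟩ m3 hr1 h
        rw [min_eq_left hr.2.le] at ht1
        rw [max_eq_right hr.2.le] at ht2
        exact ⟨t, hr.1.trans ht1, ht2.le, ht3⟩
    exact ⟨a, σ, x1, z, x2, t, h0, hz4, hz5, ht1, by linarith, by linarith, by linarith,
      by linarith, by linarith⟩
  · set a := y x2 - τ * x2 with ha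
    have z2 : y x2 - (a + τ * x2) = 0 := by rw [ha]; ring
    have z3 : y x3 - (a + τ * x3) = 0 := by rw [ha]; linarith
    have z1 : y x1 - (a + τ * x1) < 0 := by
      have : τ * (x2 - x1) < σ * (x2 - x1) := by
        apply mul_lt_mul_of_pos_right hgt; linarith
      rw [ha]; linarith
    obtain ⟨p, hp, hp1⟩ := neg_right (hlined a τ x2 m2) (by linarith) m2.1 h23 h3
    obtain ⟨q, hq, hq1⟩ := neg_left (hlined a τ x3 m3) (by linarith) m2.1 h23 h3
    obtain ⟨r, hr, hr1⟩ := neg_left (hlined a τ x2 m2) (by linarith) h0 h12 m2.2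
    rw [z2] at hp1 hr1
    rw [z3] at hq1
    obtain ⟨z, hz1, hz2, hz3⟩ := ivt (hline a τ) (p := p) (q := q) (l := 0)
      ⟨by linarith [hp.1, m2.1], by linarith [hp.2]⟩ ⟨by linarith [hq.1, m2.1], by linarith [hq.2]⟩
      hp1 hq1
    have hz4 : x2 < z := lt_of_le_of_lt (le_min hp.1.le hq.1.le) hz1
    have hz5 : z < x3 := lt_of_lt_of_le hz2 (max_le hp.2.le hq.2.le)
    obtain ⟨t, ht1, ht2, ht3⟩ := ivt (hline a τ) (p := x1) (q := r) (l := 0)
      m1 ⟨by linarith [hr.1], by linarith [hr.2, m2.2]⟩ z1 hr1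
    rw [min_eq_left hr.1.le] at ht1
    rw [max_eq_right hr.1.le] at ht2
    exact ⟨a, τ, t, x2, z, x3, by linarith, ht2.trans hr.2, hz4, hz5, h3, by linarith, by linarith,
      by linarith, by linarith⟩

/-- the mirrored version -/
lemma core' {y : ℝ → ℝ} (hc : ContinuousOn y (Icc 0 1)) {w : ℝ → ℝ}
    (hd : ∀ x ∈ Icc (0:ℝ) 1, HasDerivWithinAt y (w x) (Icc 0 1) x) (s : ℝ)
    {x1 x2 x3 : ℝ} (h0 : 0 ≤ x1) (h12 : x1 < x2) (h23 : x2 < x3) (h3 : x3 ≤ 1)
    (w1 : s < w x1) (w2 : s < w x2) (w3 : s < w x3)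
    (g12 : y x2 - s * x2 ≤ y x1 - s * x1) (g23 : y x3 - s * x3 ≤ y x2 - s * x2) : Four y := by
  apply Four.neg
  apply core (y := fun x => -y x) hc.neg (w := fun x => -w x) (fun x hx => (hd x hx).neg) (-s)
    h0 h12 h23 h3
  · show -w x1 < -s; linarith
  · show -w x2 < -s; linarith
  · show -w x3 < -s; linarith
  · show -y x1 - -s * x1 ≤ -y x2 - -s * x2; linarith
  · show -y x2 - -s * x2 ≤ -y x3 - -s * x3; linarith

/-- From many separated blocks, each with a low-slope and a high-slope point, a line with four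
intersections. -/
lemma blocks {y : ℝ → ℝ} (hc : ContinuousOn y (Icc 0 1)) {w : ℝ → ℝ}
    (hd : ∀ x ∈ Icc (0:ℝ) 1, HasDerivWithinAt y (w x) (Icc 0 1) x) (s : ℝ)
    (ξ η : Fin 29 → ℝ) (hξ : ∀ j, ξ j ∈ Icc (0:ℝ) 1) (hη : ∀ j, η j ∈ Icc (0:ℝ) 1)
    (hξs : ∀ j, w (ξ j) < s) (hηs : ∀ j, s < w (η j))
    (hsep : ∀ i j, i < j → max (ξ i) (η i) < min (ξ j) (η j)) : Four y := by
  classical
  by_contra hF
  set g : ℝ → ℝ := fun x => y x - s * x with hg
  have hξlt : ∀ i j, i < j → ξ i < ξ j := fun i j hij =>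
    lt_of_le_of_lt (le_max_left _ _) (lt_of_lt_of_le (hsep i j hij) (min_le_left _ _))
  have hηlt : ∀ i j, i < j → η i < η j := fun i j hij =>
    lt_of_le_of_lt (le_max_right _ _) (lt_of_lt_of_le (hsep i j hij) (min_le_right _ _))
  -- no increasing triple for ξ
  have K1 : ∀ i j k, i < j → j < k → g (ξ i) ≤ g (ξ j) → g (ξ k) < g (ξ j) := by
    intro i j k hij hjk h1
    by_contra hcon
    push Not at hcon
    exact hF (core hc hd s (hξ i).1 (hξlt i j hij) (hξlt j k hjk) (hξ k).2 (hξs i) (hξs j)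
      (hξs k) h1 hcon)
  have K2 : ∀ i j k, i < j → j < k → g (η j) ≤ g (η i) → g (η j) < g (η k) := by
    intro i j k hij hjk h1
    by_contra hcon
    push Not at hcon
    exact hF (core' hc hd s (hη i).1 (hηlt i j hij) (hηlt j k hjk) (hη k).2 (hηs i) (hηs j)
      (hηs k) h1 hcon)
  -- colouring
  let col : Fin 29 → Bool × Bool := fun j =>
    (decide (∃ i, i < j ∧ g (ξ i) ≤ g (ξ j)), decide (∃ i, i < j ∧ g (η j) ≤ g (η i)))
  obtain ⟨cc, -, hcc⟩ := Finset.exists_lt_card_fiber_of_mul_lt_card_of_maps_to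
    (s := (Finset.univ : Finset (Fin 29))) (t := (Finset.univ : Finset (Bool × Bool)))
    (f := col) (n := 7) (fun _ _ => Finset.mem_univ _) (by decide)
  obtain ⟨T, hTsub, hTc⟩ := Finset.exists_subset_card_eq (Nat.succ_le_of_lt hcc)
  set φ := T.orderEmbOfFin hTc with hφ
  have hφc : ∀ i, col (φ i) = cc := by
    intro i
    have := hTsub (Finset.orderEmbOfFin_mem T hTc i)
    exact (Finset.mem_filter.mp this).2
  have hφlt : ∀ i j, i < j → φ i < φ j := fun i j hij => φ.strictMono hij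
  have D1 : ∀ i j, i < j → g (ξ (φ j)) < g (ξ (φ i)) := by
    intro i j hij
    have h1 : (decide (∃ k, k < φ i ∧ g (ξ k) ≤ g (ξ (φ i)))) =
        (decide (∃ k, k < φ j ∧ g (ξ k) ≤ g (ξ (φ j)))) := by
      have := (hφc i).trans (hφc j).symm
      exact (Prod.ext_iff.mp this).1
    rw [decide_eq_decide] at h1
    by_cases hA : ∃ k, k < φ i ∧ g (ξ k) ≤ g (ξ (φ i))
    · obtain ⟨k, hk1, hk2⟩ := hA
      exact K1 k (φ i) (φ j) hk1 (hφlt i j hij) hk2
    · rw [h1] at hA
      push Not at hA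
      exact hA (φ i) (hφlt i j hij)
  have D2 : ∀ i j, i < j → g (η (φ i)) < g (η (φ j)) := by
    intro i j hij
    have h1 : (decide (∃ k, k < φ i ∧ g (η (φ i)) ≤ g (η k))) =
        (decide (∃ k, k < φ j ∧ g (η (φ j)) ≤ g (η k))) := by
      have := (hφc i).trans (hφc j).symm
      exact (Prod.ext_iff.mp this).2
    rw [decide_eq_decide] at h1
    by_cases hA : ∃ k, k < φ i ∧ g (η (φ i)) ≤ g (η k)
    · obtain ⟨k, hk1, hk2⟩ := hA
      exact K2 k (φ i) (φ j) hk1 (hφlt i j hij) hk2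
    · rw [h1] at hA
      push Not at hA
      exact hA (φ i) (hφlt i j hij)
  have hgc : ContinuousOn g (Icc 0 1) := hc.sub (by fun_prop)
  -- final step: four blocks on which the level is crossed
  have final : ∀ (l : ℝ) (i0 i1 i2 i3 : Fin 8), i0 < i1 → i1 < i2 → i2 < i3 →
      (∀ i, (i = i0 ∨ i = i1 ∨ i = i2 ∨ i = i3) →
        ∃ z, min (ξ (φ i)) (η (φ i)) < z ∧ z < max (ξ (φ i)) (η (φ i)) ∧ g z = l) → False := by
    intro l i0 i1 i2 i3 h01 h12 h23 H
    obtain ⟨z0, a0, b0, c0⟩ := H i0 (by simp)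
    obtain ⟨z1, a1, b1, c1⟩ := H i1 (by simp)
    obtain ⟨z2, a2, b2, c2⟩ := H i2 (by simp)
    obtain ⟨z3, a3, b3, c3⟩ := H i3 (by simp)
    apply hF
    have s1 := hsep _ _ (hφlt _ _ h01)
    have s2 := hsep _ _ (hφlt _ _ h12)
    have s3 := hsep _ _ (hφlt _ _ h23)
    have p0 : 0 ≤ min (ξ (φ i0)) (η (φ i0)) := le_min (hξ _).1 (hη _).1
    have p1 : max (ξ (φ i3)) (η (φ i3)) ≤ 1 := max_le (hξ _).2 (hη _).2
    simp only [hg] at c0 c1 c2 c3
    exact ⟨l, s, z0, z1, z2, z3, by linarith, by linarith, by linarith, by linarith, by linarith,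
      by linarith, by linarith, by linarith, by linarith⟩
  rcases lt_or_ge (g (ξ (φ 4))) (g (η (φ 4))) with hcase | hcase
  · set l := (g (ξ (φ 4)) + g (η (φ 4))) / 2 with hl
    have hA : ∀ i : Fin 8, 4 ≤ i → g (ξ (φ i)) < l ∧ l < g (η (φ i)) := by
      intro i hi
      rcases hi.lt_or_eq with h | h
      · have := D1 4 i h
        have := D2 4 i h
        constructor <;> linarith
      · rw [← h]
        constructor <;> linarith
    apply final l 4 5 6 7 (by decide) (by decide) (by decide)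
    intro i hi
    have hi4 : 4 ≤ i := by rcases hi with h | h | h | h <;> rw [h] <;> decide
    exact ivt hgc (hξ _) (hη _) (hA i hi4).1 (hA i hi4).2
  · set l := g (ξ (φ 4)) with hl
    have hA : ∀ i : Fin 8, i < 4 → g (η (φ i)) < l ∧ l < g (ξ (φ i)) := by
      intro i hi
      have := D1 i 4 hi
      have := D2 i 4 hi
      constructor <;> linarith
    apply final l 0 1 2 3 (by decide) (by decide) (by decide)
    intro i hi
    have hi4 : i < 4 := by rcases hi with h | h | h | h <;> rw [h] <;> decide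
    obtain ⟨z, h1, h2, h3⟩ := ivt hgc (hη (φ i)) (hξ (φ i)) (hA i hi4).1 (hA i hi4).2
    exact ⟨z, by rwa [min_comm], by rwa [max_comm], h3⟩

/-- Riemann sum comparison -/
lemma riemann {w w' : ℝ → ℝ} (hw : ∀ x ∈ Icc (0:ℝ) 1, HasDerivWithinAt w (w' x) (Icc 0 1) x)
    (hw'c : ContinuousOn w' (Icc 0 1)) : ∃ N : ℕ, 0 < N ∧
      ∫ x in (0:ℝ)..1, |w' x| ≤
        (∑ i ∈ Finset.range N, |w (((i:ℝ) + 1) / N) - w ((i:ℝ) / N)|) + 1 := by
  have huc := isCompact_Icc.uniformContinuousOn_of_continuous hw'c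
  rw [Metric.uniformContinuousOn_iff] at huc
  obtain ⟨δ, hδ, hδ2⟩ := huc (1/2) (by norm_num)
  obtain ⟨N, hN⟩ := exists_nat_gt (1 / δ)
  have hN0 : (0:ℝ) < N := lt_trans (by positivity) hN
  have hNδ : 1 / (N:ℝ) < δ := by
    rw [div_lt_iff₀ hN0]
    rw [div_lt_iff₀ hδ] at hN
    linarith
  refine ⟨N, by exact_mod_cast hN0, ?_⟩
  have hsub : ∀ i : ℕ, i < N → Icc ((i:ℝ) / N) (((i:ℝ) + 1) / N) ⊆ Icc (0:ℝ) 1 := by
    intro i hi
    apply Icc_subset_Icc (by positivity)
    rw [div_le_one hN0]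
    exact_mod_cast hi
  have hle : ∀ i : ℕ, (i:ℝ) / N ≤ ((i:ℝ) + 1) / N := by
    intro i
    gcongr
    linarith
  have hint : ∀ i : ℕ, i < N →
      IntervalIntegrable (fun x => |w' x|) volume ((i:ℝ) / N) (((i:ℝ) + 1) / N) := by
    intro i hi
    apply ContinuousOn.intervalIntegrable
    rw [uIcc_of_le (hle i)]
    exact (hw'c.mono (hsub i hi)).abs
  have hint' : ∀ i : ℕ, i < N →
      IntervalIntegrable w' volume ((i:ℝ) / N) (((i:ℝ) + 1) / N) := by
    intro i hi
    apply ContinuousOn.intervalIntegrable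
    rw [uIcc_of_le (hle i)]
    exact hw'c.mono (hsub i hi)
  have hsum : ∑ i ∈ Finset.range N, ∫ x in ((i:ℝ) / N)..(((i:ℝ) + 1) / N), |w' x| =
      ∫ x in (0:ℝ)..1, |w' x| := by
    have := intervalIntegral.sum_integral_adjacent_intervals (f := fun x => |w' x|)
      (μ := volume) (a := fun k : ℕ => (k : ℝ) / N) (n := N)
      (fun k hk => by
        have := hint k hk
        simpa using this)
    simp only [Nat.cast_zero, zero_div] at this
    rw [div_self hN0.ne'] at this
    rw [← this]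
    apply Finset.sum_congr rfl
    intro i _
    push_cast
    rfl
  rw [← hsum]
  have hkey : ∀ i ∈ Finset.range N, ∫ x in ((i:ℝ) / N)..(((i:ℝ) + 1) / N), |w' x| ≤
      |w (((i:ℝ) + 1) / N) - w ((i:ℝ) / N)| + 1 / N := by
    intro i hi
    rw [Finset.mem_range] at hi
    set p := (i:ℝ) / N with hp
    set q := ((i:ℝ) + 1) / N with hq
    have hpq : p ≤ q := hle i
    have hqp : q - p = 1 / N := by rw [hp, hq]; ring
    have hp1 : p ∈ Icc p q := left_mem_Icc.mpr hpq
    have hclose : ∀ x ∈ Icc p q, |w' x - w' p| < 1 / 2 := by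
      intro x hx
      have := hδ2 x (hsub i hi hx) p (hsub i hi hp1) (by
        rw [Real.dist_eq, abs_of_nonneg (by linarith [hx.1])]
        linarith [hx.2])
      rwa [Real.dist_eq] at this
    have hftc : ∫ x in p..q, w' x = w q - w p := by
      apply intervalIntegral.integral_eq_sub_of_hasDeriv_right_of_le hpq
      · intro x hx
        exact ((hw x (hsub i hi hx)).continuousWithinAt).mono (hsub i hi)
      · intro x hx
        have hxI : x ∈ Ioo (0:ℝ) 1 := by
          have h1 := hsub i hi hp1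
          have h2 := hsub i hi (right_mem_Icc.mpr hpq)
          exact ⟨by linarith [hx.1, h1.1], by linarith [hx.2, h2.2]⟩
        have := (hw x (Ioo_subset_Icc_self hxI)).hasDerivAt (Icc_mem_nhds hxI.1 hxI.2)
        exact this.hasDerivWithinAt
      · exact hint' i hi
    have h1 : ∫ x in p..q, |w' x| ≤ (|w' p| + 1 / 2) * (q - p) := by
      have h2 : ∫ x in p..q, |w' x| ≤ ∫ x in p..q, (|w' p| + 1 / 2) := by
        apply intervalIntegral.integral_mono_on hpq (hint i hi) (by simp)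
        intro x hx
        have h3 := hclose x hx
        have h4 := abs_sub_abs_le_abs_sub (w' x) (w' p)
        linarith
      rw [intervalIntegral.integral_const, smul_eq_mul] at h2
      linarith
    have h5 : (|w' p| - 1 / 2) * (q - p) ≤ |w q - w p| := by
      rw [← hftc]
      have h6 : ∫ x in p..q, w' x = (∫ x in p..q, (w' x - w' p)) + w' p * (q - p) := by
        rw [intervalIntegral.integral_sub (hint' i hi) (by simp), intervalIntegral.integral_const,
          smul_eq_mul]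
        ring
      have h7 : |∫ x in p..q, (w' x - w' p)| ≤ 1 / 2 * (q - p) := by
        have h8 : ‖∫ x in p..q, (w' x - w' p)‖ ≤ 1 / 2 * |q - p| := by
          apply intervalIntegral.norm_integral_le_of_norm_le_const
          intro x hx
          rw [uIoc_of_le hpq] at hx
          exact (hclose x (Ioc_subset_Icc_self hx)).le
        rwa [abs_of_nonneg (by linarith : (0:ℝ) ≤ q - p)] at h8
      rw [h6]
      have h9 : |w' p * (q - p)| = |w' p| * (q - p) := by
        rw [abs_mul, abs_of_nonneg (by linarith : (0:ℝ) ≤ q - p)]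
      have h10 := abs_sub_abs_le_abs_sub (w' p * (q - p)) (-(∫ x in p..q, (w' x - w' p)))
      rw [abs_neg, sub_neg_eq_add, h9, add_comm (w' p * (q - p))] at h10
      linarith
    rw [hqp] at h1 h5
    linarith
  calc ∑ i ∈ Finset.range N, ∫ x in ((i:ℝ) / N)..(((i:ℝ) + 1) / N), |w' x|
      ≤ ∑ i ∈ Finset.range N, (|w (((i:ℝ) + 1) / N) - w ((i:ℝ) / N)| + 1 / N) :=
        Finset.sum_le_sum hkey
    _ = _ := by
        rw [Finset.sum_add_distrib, Finset.sum_const, Finset.card_range, nsmul_eq_mul]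
        field_simp

/-- counting crossings -/
lemma crossings (N R : ℕ) (M : ℝ) (hM : 0 ≤ M) (a : ℕ → ℝ) (ha : ∀ i ≤ N, |a i| ≤ M)
    (hR : 2 * M * R < ∑ i ∈ Finset.range N, |a (i + 1) - a i|) :
    ∃ s : ℝ, R < ((Finset.range N).filter
      (fun i => min (a i) (a (i + 1)) < s ∧ s < max (a i) (a (i + 1)))).card := by
  by_contra hcon
  push Not at hcon
  set f : ℕ → ℝ → ℝ := fun i =>
    (Ioo (min (a i) (a (i + 1))) (max (a i) (a (i + 1)))).indicator (fun _ => (1:ℝ)) with hf
  have hsubI : ∀ i ∈ Finset.range N,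
      Ioo (min (a i) (a (i + 1))) (max (a i) (a (i + 1))) ⊆ Icc (-M) M := by
    intro i hi x hx
    rw [Finset.mem_range] at hi
    have h1 := abs_le.mp (ha i hi.le)
    have h2 := abs_le.mp (ha (i + 1) hi)
    have h3 : -M ≤ min (a i) (a (i + 1)) := le_min h1.1 h2.1
    have h4 : max (a i) (a (i + 1)) ≤ M := max_le h1.2 h2.2
    exact ⟨by linarith [hx.1], by linarith [hx.2]⟩
  have h1 : ∀ i ∈ Finset.range N, ∫ x in Icc (-M) M, f i x = |a (i + 1) - a i| := by
    intro i hi
    rw [hf]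
    simp only
    rw [MeasureTheory.integral_indicator measurableSet_Ioo]
    rw [Measure.restrict_restrict measurableSet_Ioo, inter_eq_left.mpr (hsubI i hi)]
    simp only [integral_const, smul_eq_mul, mul_one, measureReal_def, Measure.restrict_apply_univ,
      Real.volume_Ioo]
    rw [ENNReal.toReal_ofReal (by simp), max_sub_min_eq_abs]
  have h2 : ∑ i ∈ Finset.range N, |a (i + 1) - a i| =
      ∫ x in Icc (-M) M, ∑ i ∈ Finset.range N, f i x := by
    rw [MeasureTheory.integral_finsetSum]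
    · exact (Finset.sum_congr rfl h1).symm
    · intro i _
      apply Integrable.indicator _ measurableSet_Ioo
      simp
  have h3 : ∫ x in Icc (-M) M, ∑ i ∈ Finset.range N, f i x ≤ ∫ x in Icc (-M) M, (R:ℝ) := by
    apply MeasureTheory.integral_mono_of_nonneg
    · refine Filter.Eventually.of_forall fun x => ?_
      apply Finset.sum_nonneg
      intro i _
      exact indicator_nonneg (fun _ _ => zero_le_one) _
    · simp
    · refine Filter.Eventually.of_forall fun x => ?_
      have h4 := hcon x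
      have h5 : ∑ i ∈ Finset.range N, f i x = (((Finset.range N).filter
          (fun i => min (a i) (a (i + 1)) < x ∧ x < max (a i) (a (i + 1)))).card : ℝ) := by
        rw [Finset.card_filter]
        push_cast
        apply Finset.sum_congr rfl
        intro i _
        simp only [hf, indicator, mem_Ioo]
      simp only
      rw [h5]
      exact_mod_cast h4
  rw [← h2] at h3
  simp only [integral_const, smul_eq_mul, measureReal_def, Measure.restrict_apply_univ,
    Real.volume_Icc] at h3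
  rw [ENNReal.toReal_ofReal (by linarith)] at h3
  linarith

/-- positive part -/
theorem positive (M : ℝ) (hM : 0 < M) {y w w' : ℝ → ℝ}
    (hd : ∀ x ∈ Icc (0:ℝ) 1, HasDerivWithinAt y (w x) (Icc 0 1) x)
    (hw : ∀ x ∈ Icc (0:ℝ) 1, HasDerivWithinAt w (w' x) (Icc 0 1) x)
    (hw'c : ContinuousOn w' (Icc 0 1)) (hwM : ∀ x ∈ Icc (0:ℝ) 1, |w x| ≤ M)
    (hK : 2 * M * 57 + 2 ≤ ∫ x in (0:ℝ)..1, |w' x|) : Four y := by
  have hc : ContinuousOn y (Icc 0 1) := fun x hx => (hd x hx).continuousWithinAt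
  obtain ⟨N, hN, hN2⟩ := riemann hw hw'c
  have hN0 : (0:ℝ) < N := by exact_mod_cast hN
  set a : ℕ → ℝ := fun i => w ((i:ℝ) / N) with ha
  have haI : ∀ i ≤ N, ((i:ℝ) / N) ∈ Icc (0:ℝ) 1 := by
    intro i hi
    refine ⟨by positivity, ?_⟩
    rw [div_le_one hN0]
    exact_mod_cast hi
  obtain ⟨s, hs⟩ := crossings N 57 M hM.le a (fun i hi => hwM _ (haI i hi)) (by
    simp only [ha]
    push_cast
    linarith)
  set S := (Finset.range N).filter
      (fun i => min (a i) (a (i + 1)) < s ∧ s < max (a i) (a (i + 1))) with hS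
  obtain ⟨T, hTsub, hTc⟩ := Finset.exists_subset_card_eq (Nat.succ_le_of_lt hs)
  set φ := T.orderEmbOfFin hTc with hφ
  have hφm : ∀ i, φ i ∈ S := fun i => hTsub (Finset.orderEmbOfFin_mem T hTc i)
  have hidx : ∀ j : Fin 29, 2 * (j:ℕ) < Nat.succ 57 := fun j => by have := j.2; omega
  set k : Fin 29 → ℕ := fun j => φ ⟨2 * (j:ℕ), hidx j⟩ with hk
  have hklt : ∀ i j : Fin 29, i < j → k i + 1 < k j := by
    intro i j hij
    have h1 : 2 * (i:ℕ) + 1 < 2 * (j:ℕ) := by
      have : (i:ℕ) < j := hij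
      omega
    have h2 : 2 * (i:ℕ) + 1 < Nat.succ 57 := by have := hidx j; omega
    have h3 : k i < φ ⟨2 * (i:ℕ) + 1, h2⟩ := φ.strictMono (by
      rw [Fin.lt_def]; simp)
    have h4 : φ ⟨2 * (i:ℕ) + 1, h2⟩ < k j := φ.strictMono (by
      rw [Fin.lt_def]; exact h1)
    omega
  have hkS : ∀ j, k j ∈ S := fun j => hφm _
  have hkN : ∀ j, k j < N := fun j => by
    have := (Finset.mem_filter.mp (hkS j)).1
    rwa [Finset.mem_range] at this
  have hpts : ∀ j : Fin 29, ∃ ξ η : ℝ, ξ ∈ Icc ((k j : ℝ) / N) ((k j + 1 : ℝ) / N) ∧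
      η ∈ Icc ((k j : ℝ) / N) ((k j + 1 : ℝ) / N) ∧ w ξ < s ∧ s < w η := by
    intro j
    have hle : (k j : ℝ) / N ≤ (k j + 1 : ℝ) / N := by
      gcongr; linarith
    have h1 := (Finset.mem_filter.mp (hkS j)).2
    simp only [ha] at h1
    push_cast at h1
    rcases min_lt_iff.mp h1.1 with h2 | h2 <;> rcases lt_max_iff.mp h1.2 with h3 | h3
    · linarith
    · exact ⟨_, _, left_mem_Icc.mpr hle, right_mem_Icc.mpr hle, h2, h3⟩
    · exact ⟨_, _, right_mem_Icc.mpr hle, left_mem_Icc.mpr hle, h2, h3⟩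
    · linarith
  choose ξ η hξ hη hξs hηs using hpts
  have hI : ∀ j, Icc ((k j : ℝ) / N) ((k j + 1 : ℝ) / N) ⊆ Icc (0:ℝ) 1 := by
    intro j
    apply Icc_subset_Icc (by positivity)
    rw [div_le_one hN0]
    exact_mod_cast hkN j
  apply blocks hc hd s ξ η (fun j => hI j (hξ j)) (fun j => hI j (hη j)) hξs hηs
  intro i j hij
  have h1 : ((k i : ℝ) + 1) / N < (k j : ℝ) / N := by
    gcongr
    exact_mod_cast hklt i j hij
  exact lt_of_le_of_lt (max_le (hξ i).2 (hη i).2) (lt_of_lt_of_le h1 (le_min (hξ j).1 (hη j).1))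


lemma Four.encard {y : ℝ → ℝ} (h : Four y) :
    ∃ a b : ℝ, (4 : ℕ∞) ≤ {x ∈ Icc (0:ℝ) 1 | y x = a + b * x}.encard := by
  obtain ⟨a, b, z1, z2, z3, z4, h0, h12, h23, h34, h4, e1, e2, e3, e4⟩ := h
  refine ⟨a, b, ?_⟩
  have hcard : ({z1, z2, z3, z4} : Finset ℝ).card = 4 := by
    have n1 : z1 ∉ ({z2, z3, z4} : Finset ℝ) := by
      simp only [Finset.mem_insert, Finset.mem_singleton, not_or]
      exact ⟨by linarith, by linarith, by linarith⟩
    have n2 : z2 ∉ ({z3, z4} : Finset ℝ) := by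
      simp only [Finset.mem_insert, Finset.mem_singleton, not_or]
      exact ⟨by linarith, by linarith⟩
    have n3 : z3 ∉ ({z4} : Finset ℝ) := by
      simp only [Finset.mem_singleton]
      linarith
    rw [Finset.card_insert_of_notMem n1, Finset.card_insert_of_notMem n2,
      Finset.card_insert_of_notMem n3, Finset.card_singleton]
  have hsub : ((({z1, z2, z3, z4} : Finset ℝ)) : Set ℝ) ⊆
      {x ∈ Icc (0:ℝ) 1 | y x = a + b * x} := by
    intro x hx
    simp only [Finset.coe_insert, Finset.coe_singleton, mem_insert_iff, mem_singleton_iff] at hx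
    rcases hx with rfl | rfl | rfl | rfl
    · exact ⟨⟨by linarith, by linarith⟩, e1⟩
    · exact ⟨⟨by linarith, by linarith⟩, e2⟩
    · exact ⟨⟨by linarith, by linarith⟩, e3⟩
    · exact ⟨⟨by linarith, by linarith⟩, e4⟩
  have h5 := Set.encard_le_encard hsub
  rw [Set.encard_coe_eq_coe_finsetCard, hcard] at h5
  exact_mod_cast h5

/-- **Exact threshold.** For every real `M > 0` and every natural number `N`, a constant
`K = K(M,N)` as in the question exists if and only if `N ≤ 4`. In particular the assertion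
`for all positive integers M, N there is such a K` is false. -/
theorem main (M : ℝ) (hM : 0 < M) (N : ℕ) :
    (∃ K : ℝ, ∀ y : ℝ → ℝ, ContDiffOn ℝ 2 y (Icc 0 1) →
      (∀ x ∈ Icc (0:ℝ) 1, |y x| ≤ M) →
      (∀ x ∈ Icc (0:ℝ) 1, |derivWithin y (Icc 0 1) x| ≤ M) →
      K ≤ ∫ x in (0:ℝ)..1, |iteratedDerivWithin 2 y (Icc 0 1) x| →
      ∃ a b : ℝ, (N : ℕ∞) ≤ {x ∈ Icc (0:ℝ) 1 | y x = a + b * x}.encard) ↔ N ≤ 4 := by
  have hud : UniqueDiffOn ℝ (Icc (0:ℝ) 1) := uniqueDiffOn_Icc zero_lt_one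
  constructor
  · rintro ⟨K, hK⟩
    obtain ⟨y, hy, hb, hb', hint, hline⟩ := construction M hM K
    have hdiff : Differentiable ℝ y := hy.differentiable (by simp)
    have hd1 : ∀ x ∈ Icc (0:ℝ) 1, derivWithin y (Icc 0 1) x = deriv y x := fun x hx =>
      (hdiff x).derivWithin (hud x hx)
    have hdiff2 : Differentiable ℝ (deriv y) := by
      have := (contDiff_infty_iff_deriv.mp hy).2
      exact this.differentiable (by simp)
    have hd2 : ∀ x ∈ Icc (0:ℝ) 1, iteratedDerivWithin 2 y (Icc 0 1) x = deriv (deriv y) x := by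
      intro x hx
      rw [iteratedDerivWithin_succ]
      have h1 : ∀ z ∈ Icc (0:ℝ) 1, iteratedDerivWithin 1 y (Icc 0 1) z = deriv y z := by
        intro z hz
        rw [iteratedDerivWithin_one, hd1 z hz]
      rw [derivWithin_congr h1 (h1 x hx)]
      exact (hdiff2 x).derivWithin (hud x hx)
    obtain ⟨a, b, hab⟩ := hK y (by exact_mod_cast (contDiff_infty.mp hy 2).contDiffOn) hb
      (fun x hx => by rw [hd1 x hx]; exact hb' x hx) (by
        have : ∫ x in (0:ℝ)..1, |iteratedDerivWithin 2 y (Icc 0 1) x| =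
            ∫ x in (0:ℝ)..1, |deriv (deriv y) x| := by
          apply intervalIntegral.integral_congr
          intro x hx
          rw [uIcc_of_le zero_le_one] at hx
          simp only
          rw [hd2 x hx]
        rw [this]
        exact hint)
    have := hab.trans (hline a b)
    exact_mod_cast this
  · intro hN
    refine ⟨2 * M * 57 + 2, fun y hy hb hb' hint => ?_⟩
    have h1 : ∀ x ∈ Icc (0:ℝ) 1,
        HasDerivWithinAt y (derivWithin y (Icc 0 1) x) (Icc 0 1) x := fun x hx =>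
      ((hy.differentiableOn (by simp)) x hx).hasDerivWithinAt
    have h2 : ∀ x ∈ Icc (0:ℝ) 1, iteratedDerivWithin 1 y (Icc 0 1) x =
        derivWithin y (Icc 0 1) x := fun x hx => by rw [iteratedDerivWithin_one]
    have h3 : ∀ x ∈ Icc (0:ℝ) 1, HasDerivWithinAt (derivWithin y (Icc 0 1))
        (iteratedDerivWithin 2 y (Icc 0 1) x) (Icc 0 1) x := by
      intro x hx
      have h4 := hy.differentiableOn_iteratedDerivWithin (m := 1) (by norm_num) hud x hx
      have h5 := h4.hasDerivWithinAt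
      rw [← iteratedDerivWithin_succ] at h5
      exact h5.congr (fun z hz => (h2 z hz).symm) (h2 x hx).symm
    have h4 : ContinuousOn (iteratedDerivWithin 2 y (Icc 0 1)) (Icc (0:ℝ) 1) :=
      hy.continuousOn_iteratedDerivWithin (by norm_num) hud
    have h5 := positive M hM h1 h3 h4 hb' hint
    obtain ⟨a, b, hab⟩ := h5.encard
    exact ⟨a, b, le_trans (by exact_mod_cast hN) hab⟩

end Pool.Agent.Helper80.D93447
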